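import Pool.Agent.Helper17.RZ.St4

/-!
# Project RZ (MP_77656e_ag), module D3: the DG algebra of endomorphisms of the generator in terms of
equivariant complexes
-/

set_option autoImplicit false

open MvPolynomial

namespace Pool.Agent.Helper87.RZ

open Pool.Agent.Helper17.RZ

universe u v

noncomputable section

variable {k : Type u} [Field k]

/-! ### homogeneous functions -/

theorem hd_inv {d : Fin 4 → ℤ} {x : LL k} (hx : x ∈ HD k d) (h0 : x ≠ 0) :
    x⁻¹ ∈ HD k (fun s => - d s) := by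
  obtain ⟨g, h, e, e', hh, hg1, hh1, hd, rfl⟩ := hx
  have hg : g ≠ 0 := by
    rintro rfl
    apply h0
    simp
  refine ⟨h, g, e', e, hg, hh1, hg1, fun s => ?_, ?_⟩
  · have := hd s
    dsimp only
    omega
  · rw [inv_div]

theorem hd_congr {d d' : Fin 4 → ℤ} {x : LL k} (hx : x ∈ HD k d) (h : ∀ s, d s = d' s) :
    x ∈ HD k d' := by
  have : d = d' := funext h
  rwa [this] at hx

theorem hd_pow {d : Fin 4 → ℤ} {x : LL k} (hx : x ∈ HD k d) (n : ℕ) :
    x ^ n ∈ HD k (fun s => n * d s) := by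
  induction n with
  | zero =>
    rw [pow_zero]
    exact hd_congr HD_one (fun s => by simp)
  | succ n ih =>
    rw [pow_succ]
    exact hd_congr (HD_mul ih hx) (fun s => by push_cast; ring)

theorem hd_zpow {d : Fin 4 → ℤ} {x : LL k} (hx : x ∈ HD k d) (h0 : x ≠ 0) (n : ℤ) :
    x ^ n ∈ HD k (fun s => n * d s) := by
  rcases Int.eq_nat_or_neg n with ⟨m, rfl | rfl⟩
  · rw [zpow_natCast]; exact hd_pow hx m
  · rw [zpow_neg, zpow_natCast]
    exact hd_congr (hd_inv (hd_pow hx m) (pow_ne_zero _ h0)) (fun s => by ring)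

theorem hd_prod {ι : Type*} (S : Finset ι) (x : ι → LL k) (d : ι → Fin 4 → ℤ)
    (h : ∀ i ∈ S, x i ∈ HD k (d i)) : ∏ i ∈ S, x i ∈ HD k (fun s => ∑ i ∈ S, d i s) := by
  classical
  induction S using Finset.induction_on with
  | empty => simpa using HD_one
  | insert a S ha ih =>
    rw [Finset.prod_insert ha]
    exact hd_congr (HD_mul (h a (Finset.mem_insert_self _ _))
      (ih fun i hi => h i (Finset.mem_insert_of_mem hi))) (fun s => by
        rw [Finset.sum_insert ha])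

theorem hd_X2 (s : Fin 4) (j : Bool) :
    IsWeightedHomogeneous wt ((X (s, j) : SS k) ^ 2) (2 • (Pi.single s 1 : Fin 4 → ℕ)) :=
  (isWeightedHomogeneous_X k wt (s, j)).pow 2

theorem hd_lt01 (s : Fin 4) (c : Fin 5) (hc : c = 0 ∨ c = 1) :
    al k (lt k s c) ∈ HD k (Pi.single s 4) := by
  have h1 : IsWeightedHomogeneous wt (lt k s c) (4 • (Pi.single s 1 : Fin 4 → ℕ)) := by
    rcases hc with rfl | rfl
    · have h2 : IsWeightedHomogeneous wt ((X (s, false) : SS k) ^ 2 + X (s, true) ^ 2)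
          (2 • (Pi.single s 1 : Fin 4 → ℕ)) :=
        (weightedHomogeneousSubmodule k wt _).add_mem (hd_X2 s false) (hd_X2 s true)
      have h3 := h2.pow 2
      rw [smul_smul] at h3
      exact h3
    · have h3 := (hd_X2 (k := k) s false).mul (hd_X2 (k := k) s true)
      rw [← add_smul] at h3
      exact h3
  refine ⟨lt k s c, 1, _, 0, one_ne_zero, h1, isWeightedHomogeneous_one k wt, ?_, by simp⟩
  intro t
  by_cases h : t = s
  · subst h; simp
  · simp [Pi.single_eq_of_ne h]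

theorem dn_al (h P : SS k) : al k P ∈ Dn k h := ⟨0, P, by simp⟩

theorem dn_inv {h P c : SS k} (hP : P ≠ 0) (hc : h = P * c) : (al k P)⁻¹ ∈ Dn k h := by
  refine ⟨1, c, ?_⟩
  rw [hc, map_mul, pow_one, ← mul_assoc, inv_mul_cancel₀ (al_ne_zero k hP), one_mul]

/-! ### the functions `θ` -/

/-- the product of the `a_s ^ t_s` -/
def th (k : Type u) [Field k] (t : Fin 4 → ℤ) : LL k := ∏ s, al k (lt k s 0) ^ t s

theorem lt_ne (s : Fin 4) (c : Fin 5) : al k (lt k s c) ≠ 0 := al_ne_zero k (lt_ne_zero k s c)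

theorem th_ne (t : Fin 4 → ℤ) : th k t ≠ 0 :=
  Finset.prod_ne_zero_iff.mpr fun s _ => zpow_ne_zero _ (lt_ne s 0)

theorem th_hd (t : Fin 4 → ℤ) : th k t ∈ HD k (fun s => 4 * t s) := by
  refine hd_congr (hd_prod Finset.univ _ (fun s => fun r => t s * (Pi.single s 4 : Fin 4 → ℤ) r)
    (fun s _ => hd_zpow (hd_lt01 s 0 (Or.inl rfl)) (lt_ne s 0) (t s))) ?_
  intro r
  rw [Finset.sum_eq_single r]
  · rw [Pi.single_eq_same, mul_comm]
  · intro b _ hb
    rw [Pi.single_eq_of_ne (Ne.symm hb), mul_zero]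
  · intro h; exact absurd (Finset.mem_univ r) h

theorem code_cases (a s : Fin 4) : code a s = (true, true) ∨ code a s = (true, false) ∨
    code a s = (false, true) ∨ code a s = (false, false) := by
  rcases code a s with ⟨x, y⟩
  cases x <;> cases y <;> simp

theorem ga_lt0 (a s : Fin 4) : ga k a (al k (lt k s 0)) = al k (lt k s 0) := by
  rw [ga_algebraMap]
  congr 1
  change sb k (code a) ((X (s, false) ^ 2 + X (s, true) ^ 2) ^ 2) =
    (X (s, false) ^ 2 + X (s, true) ^ 2) ^ 2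
  rw [map_pow, map_add, map_pow, map_pow, sb_X, sb_X]
  rcases code_cases a s with h | h | h | h <;> simp [h] <;> ring

theorem ga_th (a : Fin 4) (t : Fin 4 → ℤ) : ga k a (th k t) = th k t := by
  unfold th
  rw [map_prod]
  exact Finset.prod_congr rfl fun s _ => by rw [map_zpow₀, ga_lt0]

theorem tE_cases (e : IE) (s : Fin 4) : tE e s = 0 ∨ tE e s = -1 := by
  revert e s; decide

/-! ### the local generators -/

theorem al_fw (w : Fin 4 → Fin 5) : al k (fw k w) = ∏ s, al k (lt k s (w s)) :=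
  map_prod (algebraMap (SS k) (LL k)) _ _

theorem bet_val (s : Fin 4) : ((bet k s : K0 k) : LL k) = al k (lt k s 1) / al k (lt k s 0) := by
  unfold bet
  rw [aa_div]
  have h1 : al k (fw k (w1 s).1) = al k (lt k s 1) * ∏ t ∈ Finset.univ.erase s, al k (lt k t 0) := by
    refine (al_fw (Function.update (fun _ => 0) s 1)).trans ?_
    rw [← Finset.mul_prod_erase Finset.univ _ (Finset.mem_univ s)]
    congr 1
    · rw [Function.update_self]
    · refine Finset.prod_congr rfl fun t ht => ?_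
      rw [Function.update_of_ne (Finset.ne_of_mem_erase ht)]
  have h0 : al k (fw k w0.1) = al k (lt k s 0) * ∏ t ∈ Finset.univ.erase s, al k (lt k t 0) := by
    refine (al_fw (fun _ => 0)).trans ?_
    rw [← Finset.mul_prod_erase Finset.univ _ (Finset.mem_univ s)]
  have h2 : ∏ t ∈ Finset.univ.erase s, al k (lt k t 0) ≠ 0 :=
    Finset.prod_ne_zero_iff.mpr fun t _ => lt_ne t 0
  rw [h1, h0, mul_div_mul_right _ _ h2]

/-- the letter used in the place `s` for the word `w` -/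
def cl (w : GW) (s : Fin 4) : Fin 5 := if w.1 s = 1 ∨ w.1 s = 4 then 1 else 0

theorem cl_cases (w : GW) (s : Fin 4) : cl w s = 0 ∨ cl w s = 1 := by
  unfold cl; split
  · exact Or.inr rfl
  · exact Or.inl rfl

theorem uu_th (t : Fin 4 → ℤ) (w : GW) :
    ((uu k t w : K0 k) : LL k) * th k t = ∏ s, al k (lt k s (cl w s)) ^ t s := by
  have h1 : ((uu k t w : K0 k) : LL k) =
      ∏ s, (if w.1 s = 1 ∨ w.1 s = 4 then ((bet k s : K0 k) : LL k) ^ t s else 1) := by
    unfold uu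
    rw [← IntermediateField.coe_val, map_prod]
    refine Finset.prod_congr rfl fun s _ => ?_
    split
    · rw [map_zpow₀]
    · rw [map_one]
  rw [h1, th, ← Finset.prod_mul_distrib]
  refine Finset.prod_congr rfl fun s _ => ?_
  unfold cl
  split
  · rw [bet_val, div_zpow, div_mul_cancel₀ _ (zpow_ne_zero _ (lt_ne s 0))]
  · rw [one_mul]

theorem uth_hd (t : Fin 4 → ℤ) (w : GW) :
    ∏ s, al k (lt k s (cl w s)) ^ t s ∈ HD k (fun s => 4 * t s) := by
  refine hd_congr (hd_prod Finset.univ _ (fun s => fun r => t s * (Pi.single s 4 : Fin 4 → ℤ) r)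
    (fun s _ => hd_zpow (hd_lt01 s _ (cl_cases w s)) (lt_ne s _) (t s))) ?_
  intro r
  rw [Finset.sum_eq_single r]
  · rw [Pi.single_eq_same, mul_comm]
  · intro b _ hb
    rw [Pi.single_eq_of_ne (Ne.symm hb), mul_zero]
  · intro h; exact absurd (Finset.mem_univ r) h

theorem uth_inv_dn (e : IE) (w : GW) (h : SS k) :
    (∏ s, al k (lt k s (cl w s)) ^ tE e s)⁻¹ ∈ Dn k h := by
  rw [← Finset.prod_inv_distrib]
  refine Subalgebra.prod_mem _ fun s _ => ?_
  rcases tE_cases e s with h1 | h1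
  · rw [h1, zpow_zero, inv_one]; exact Subalgebra.one_mem _
  · rw [h1, zpow_neg_one, inv_inv]; exact dn_al _ _

theorem lt0_inv_dn (s : Fin 4) (σ : Finset GW) (hσ : w0 ∈ σ) :
    (al k (lt k s 0))⁻¹ ∈ Dn k (fs k σ) := by
  have h1 : lt k s 0 ∣ fs k σ := by
    have h2 : lt k s 0 ∣ fw k w0.1 := Finset.dvd_prod_of_mem (fun s => lt k s (w0.1 s)) (Finset.mem_univ s)
    exact h2.trans (Finset.dvd_prod_of_mem (fun w : GW => fw k w.1) hσ)
  obtain ⟨c, hc⟩ := h1
  exact dn_inv (lt_ne_zero k s 0) hc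

theorem th_div_dn (e e' : IE) (σ : Finset GW) (hσ : w0 ∈ σ) :
    th k (tE e') / th k (tE e) ∈ Dn k (fs k σ) := by
  unfold th
  rw [← Finset.prod_div_distrib]
  refine Subalgebra.prod_mem _ fun s _ => ?_
  rw [div_eq_mul_inv]
  refine Subalgebra.mul_mem _ ?_ ?_
  · rcases tE_cases e' s with h1 | h1
    · rw [h1, zpow_zero]; exact Subalgebra.one_mem _
    · rw [h1, zpow_neg_one]; exact lt0_inv_dn s σ hσ
  · rcases tE_cases e s with h1 | h1
    · rw [h1, zpow_zero, inv_one]; exact Subalgebra.one_mem _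
    · rw [h1, zpow_neg_one, inv_inv]; exact dn_al _ _

/-- the functions of `K0` are invariant -/
theorem ga_K0 (hI : InvThm.{u}) (h2 : (2 : k) ≠ 0) (a : Fin 4) (x : K0 k) :
    ga k a (x : LL k) = x := by
  have hA : ∀ y ∈ (ZZ k).A {w0}, ga k a (y : LL k) = y := fun y hy =>
    (((hI k h2 {w0} (Finset.singleton_nonempty _) (y : LL k)).mpr ⟨y, hy, rfl⟩).2.2) a
  obtain ⟨c, hc, hcx⟩ := (ZZ k).exists_mul_mem {w0} (Finset.singleton_nonempty _) x
  have h3 := hA _ hcx
  have h4 := hA _ c.2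
  have h5 : ((((c : K0 k) * x : K0 k)) : LL k) = ((c : K0 k) : LL k) * (x : LL k) := rfl
  rw [h5, map_mul, h4] at h3
  have h6 : ((c : K0 k) : LL k) ≠ 0 := by
    intro h
    apply hc
    apply Subtype.ext
    apply Subtype.ext
    exact h
  exact mul_left_cancel₀ h6 h3

/-! ### the comparison map -/

/-- linear maps of the generic fibre of the generator -/
abbrev EndE (k : Type u) [Field k] : Type u := (IE → K0 k) →ₗ[K0 k] (IE → K0 k)

/-- the entries of a linear map -/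
def ent (φ : EndE k) (e e' : IE) : LL k := ((φ (Pi.single e' 1) e : K0 k) : LL k)

/-- the matrix of the comparison -/
def TM (φ : EndE k) : Matrix (EY k).J (EY k).J (LL k) :=
  fun e e' => ent φ e e' * th k (tE e) / th k (tE e')

/-- the comparison map -/
def TL (φ : EndE k) : (EY k).G.V →ₗ[LL k] (EY k).G.V := YObj.lin (TM φ)

theorem mat_TL (φ : EndE k) : YObj.mat (TL φ) = TM φ := YObj.mat_lin (X := EY k) (Y := EY k) _

theorem expand (φ : EndE k) (v : IE → K0 k) (e : IE) :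
    φ v e = ∑ e', v e' * φ (Pi.single e' 1) e := by
  have h : v = ∑ e', v e' • (Pi.single e' 1 : IE → K0 k) := by
    funext i
    rw [Finset.sum_apply, Finset.sum_eq_single i]
    · simp
    · intro j _ hj
      simp [Pi.single_eq_of_ne (Ne.symm hj)]
    · intro h; exact absurd (Finset.mem_univ i) h
  conv_lhs => rw [h]
  rw [map_sum, Finset.sum_apply]
  exact Finset.sum_congr rfl fun e' _ => by rw [map_smul]; rfl

theorem TM_id : TM (LinearMap.id : EndE k) = 1 := by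
  ext e e'
  unfold TM ent
  by_cases h : e = e'
  · subst h
    have h1 : ((LinearMap.id : EndE k) (Pi.single (e : IE) 1)) (e : IE) = 1 := by
      rw [LinearMap.id_apply]; exact Pi.single_eq_same _ _
    rw [h1, Matrix.one_apply_eq]
    have := th_ne (k := k) (tE e)
    simp [this]
  · have h1 : ((LinearMap.id : EndE k) (Pi.single (e' : IE) 1)) (e : IE) = 0 := by
      rw [LinearMap.id_apply]; exact Pi.single_eq_of_ne h _
    rw [h1, Matrix.one_apply_ne h]
    simp

theorem TM_add (φ ψ : EndE k) : TM (φ + ψ) = TM φ + TM ψ := by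
  ext e e'
  unfold TM ent
  rw [Matrix.add_apply, LinearMap.add_apply, Pi.add_apply]
  have h1 : ∀ x y : K0 k, ((x + y : K0 k) : LL k) = (x : LL k) + y := fun x y => rfl
  rw [h1]
  ring

theorem TM_smul (c : k) (φ : EndE k) : TM (c • φ) = c • TM φ := by
  ext e e'
  unfold TM ent
  rw [Matrix.smul_apply, LinearMap.smul_apply, Pi.smul_apply]
  have h1 : ∀ x : K0 k, ((c • x : K0 k) : LL k) = c • (x : LL k) := fun x => rfl
  rw [h1, Algebra.smul_def, Algebra.smul_def]
  ring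

theorem TM_zero : TM (0 : EndE k) = 0 := by
  ext e e'
  change ((0 : K0 k) : LL k) * th k (tE e) / th k (tE e') = 0
  rw [ZeroMemClass.coe_zero, zero_mul, zero_div]

theorem TM_comp (φ ψ : EndE k) : TM (φ ∘ₗ ψ) = TM φ * TM ψ := by
  ext e e'
  rw [Matrix.mul_apply]
  have h1 : TM (φ ∘ₗ ψ) e e' = ∑ e'' : IE, TM φ e e'' * TM ψ e'' e' := by
    unfold TM ent
    rw [LinearMap.comp_apply, expand φ (ψ (Pi.single (e' : IE) 1)) e]
    have h2 : ((∑ e'', ψ (Pi.single (e' : IE) 1) e'' * φ (Pi.single e'' 1) e : K0 k) : LL k) =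
        ∑ e'', ((ψ (Pi.single (e' : IE) 1) e'' : K0 k) : LL k) *
          ((φ (Pi.single e'' 1) e : K0 k) : LL k) := by
      rw [← IntermediateField.coe_val, map_sum]
      rfl
    rw [h2, Finset.sum_mul, Finset.sum_div]
    refine Finset.sum_congr rfl fun e'' _ => ?_
    have h3 := th_ne (k := k) (tE e'')
    have h4 := th_ne (k := k) (tE e')
    field_simp
  exact h1

theorem TM_inj {φ ψ : EndE k} (h : TM φ = TM ψ) : φ = ψ := by
  apply LinearMap.ext
  intro v
  funext e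
  rw [expand, expand]
  refine Finset.sum_congr rfl fun e' _ => ?_
  congr 1
  apply Subtype.ext
  have h1 := congrFun (congrFun h e) e'
  unfold TM ent at h1
  have h3 := th_ne (k := k) (tE e)
  have h4 := th_ne (k := k) (tE e')
  rw [div_left_inj' h4] at h1
  exact mul_right_cancel₀ h3 h1

theorem TL_id : TL (LinearMap.id : EndE k) = LinearMap.id := by
  apply YObj.mat_injective
  rw [mat_TL, TM_id, YObj.mat_id]

theorem TL_zero : TL (0 : EndE k) = 0 := by
  apply YObj.mat_injective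
  rw [mat_TL, TM_zero, YObj.mat_zero]

theorem TL_add (φ ψ : EndE k) : TL (φ + ψ) = TL φ + TL ψ := by
  apply YObj.mat_injective
  rw [mat_TL, TM_add, YObj.mat_add, mat_TL, mat_TL]

theorem TL_smul (c : k) (φ : EndE k) : TL (c • φ) = c • TL φ := by
  apply YObj.mat_injective
  rw [mat_TL, TM_smul, YObj.mat_smul, mat_TL]

theorem TL_comp (φ ψ : EndE k) : TL (φ ∘ₗ ψ) = TL φ ∘ₗ TL ψ := by
  apply YObj.mat_injective
  rw [mat_TL, TM_comp, YObj.mat_comp, mat_TL, mat_TL]

theorem TL_inj {φ ψ : EndE k} (h : TL φ = TL ψ) : φ = ψ := by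
  apply TM_inj
  rw [← mat_TL, ← mat_TL, h]

/-- the comparison map as an additive map -/
def TA (k : Type u) [Field k] : EndE k →ₗ[k] ((EY k).G.V →ₗ[LL k] (EY k).G.V) where
  toFun := TL
  map_add' := TL_add
  map_smul' := TL_smul

/-! ### the equivariant side -/

theorem tens_dm {X Y : YObj k} (hX : X.dm = 0) (hY : Y.dm = 0) : (X.tens Y).dm = 0 := by
  change Matrix.kroneckerMap (· * ·) X.dm (1 : Matrix Y.J Y.J (SS k)) +
    Matrix.kroneckerMap (· * ·) (pm X) Y.dm = 0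
  rw [hX, hY]
  ext p q
  simp

theorem tens_rho {X Y : YObj k} (a : Fin 4) (hX : X.rho a = 1) (hY : Y.rho a = 1) :
    (X.tens Y).rho a = 1 := by
  change Matrix.kroneckerMap (· * ·) (X.rho a) (Y.rho a) = 1
  rw [hX, hY]
  exact Matrix.one_kronecker_one

theorem EY_dm : (EY k).dm = 0 := tens_dm (tens_dm (tens_dm rfl rfl) rfl) rfl

theorem EY_rho (a : Fin 4) : (EY k).rho a = 1 :=
  tens_rho a (tens_rho a (tens_rho a rfl rfl) rfl) rfl

theorem EY_gr (e : (EY k).J) : (EY k).gr e = 0 := rfl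

theorem EY_tw (e : IE) (s : Fin 4) : (EY k).tw e s = 4 * tE e s := by
  obtain ⟨⟨⟨b0, b1⟩, b2⟩, b3⟩ := e
  change (((if b0 then (Pi.single 0 (-4) : Fin 4 → ℤ) else 0) +
    (if b1 then (Pi.single 1 (-4) : Fin 4 → ℤ) else 0)) +
    (if b2 then (Pi.single 2 (-4) : Fin 4 → ℤ) else 0) +
    (if b3 then (Pi.single 3 (-4) : Fin 4 → ℤ) else 0)) s = 4 * tE (((b0, b1), b2), b3) s
  revert b0 b1 b2 b3 s
  decide

theorem EY_d : (EY k).G.d = 0 := by
  apply YObj.mat_injective
  rw [YObj.mat_d, EY_dm, YObj.mat_zero]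
  ext i j
  simp

theorem EY_pr (i : ℤ) : (EY k).G.pr i = if i = 0 then LinearMap.id else 0 := by
  apply YObj.mat_injective
  rw [YObj.mat_pr]
  by_cases h : i = 0
  · subst h
    rw [if_pos rfl, YObj.mat_id, ← Matrix.diagonal_one]
    congr 1
  · rw [if_neg h, YObj.mat_zero]
    ext a b
    rw [Matrix.diagonal_apply]
    split
    · rw [if_neg]
      · rfl
      · rw [EY_gr]; exact Ne.symm h
    · rfl

theorem P_eq_id {L : Type u} [Field L] [Algebra k L] (X : GrD k L)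
    (h : ∀ i, X.pr i = if i = 0 then LinearMap.id else 0) : X.P = LinearMap.id := by
  apply X.ext_pr
  intro i
  rw [X.P_pr, h i]
  by_cases hi : i = 0
  · subst hi; simp
  · rw [if_neg hi]; simp

theorem EY_P : (EY k).G.P = LinearMap.id := P_eq_id _ EY_pr

theorem EZ_pr (hU : UU k) (i : ℤ) : (EZ k hU).pr i = if i = 0 then LinearMap.id else 0 := rfl

theorem EZ_P (hU : UU k) : (EZ k hU).toGrD.P = LinearMap.id := P_eq_id _ (EZ_pr hU)

theorem mem_EYH {σ : Finset GW} (φ : (EY k).G.V →ₗ[LL k] (EY k).G.V) :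
    φ ∈ (EY k).H (EY k) σ ↔ (∀ i j, YObj.mat φ i j ∈ HD k (fun s => 4 * tE i s - 4 * tE j s) ∧
      YObj.mat φ i j ∈ Dn k (fs k σ)) ∧ ∀ a i j, ga k a (YObj.mat φ i j) = YObj.mat φ i j := by
  have h1 : ∀ i j : (EY k).J, (fun s => (EY k).tw i s - (EY k).tw j s) =
      fun s => 4 * tE i s - 4 * tE j s := by
    intro i j; funext s; rw [EY_tw, EY_tw]
  have h2 : ∀ a, ((EY k).rho a).map (algebraMap k (LL k)) = 1 := by
    intro a
    rw [EY_rho]
    exact Matrix.map_one _ (map_zero _) (map_one _)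
  constructor
  · rintro ⟨h3, h4⟩
    refine ⟨fun i j => ?_, fun a i j => ?_⟩
    · rw [← h1]; exact h3 i j
    · have h5 := h4 a
      rw [h2, Matrix.one_mul, Matrix.mul_one] at h5
      exact congrFun (congrFun h5 i) j
  · rintro ⟨h3, h4⟩
    refine ⟨fun i j => ?_, fun a => ?_⟩
    · rw [h1]; exact h3 i j
    · rw [h2, Matrix.one_mul, Matrix.mul_one]
      ext i j
      exact h4 a i j

/-! ### the local statements -/

theorem lat_iff (hL : LatHom.{u}) (h2 : (2 : k) ≠ 0) (hU : UU k) {σ : Finset GW}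
    (hσ : σ.Nonempty) (v : IE → K0 k) : v ∈ (EZ k hU).lat σ ↔
      ∀ e, (v e : LL k) * th k (tE e) ∈ HD k (fun s => 4 * tE e s) ∧
        (v e : LL k) * th k (tE e) ∈ Dn k (fs k σ) :=
  hL k h2 hU IE tE σ hσ v

theorem TL_mem (hI : InvThm.{u}) (hL : LatHom.{u}) (h2 : (2 : k) ≠ 0) (hU : UU k)
    {σ : Finset GW} (hσ : σ.Nonempty) (φ : EndE k)
    (hφ : ∀ v : IE → K0 k, v ∈ (EZ k hU).lat σ → φ v ∈ (EZ k hU).lat σ) :
    TL φ ∈ (EY k).H (EY k) σ := by
  rw [mem_EYH, mat_TL]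
  refine ⟨fun e e' => ?_, fun a e e' => ?_⟩
  · obtain ⟨w, hw⟩ := hσ
    have hv : (Pi.single e' (uu k (tE e') w) : IE → K0 k) ∈ (EZ k hU).lat σ := by
      change ∀ i, ∀ j ∈ σ, (Pi.single e' (uu k (tE e') w) : IE → K0 k) i / uu k (tE i) j ∈ (ZZ k).A σ
      intro i j hj
      by_cases h : i = e'
      · subst h
        rw [Pi.single_eq_same]
        have hsub : ({w, j} : Finset GW) ⊆ σ := by
          intro x hx
          rw [Finset.mem_insert, Finset.mem_singleton] at hx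
          rcases hx with rfl | rfl <;> assumption
        exact (ZZ k).A_mono hsub (hU (tE i) w j)
      · rw [Pi.single_eq_of_ne h, zero_div]; exact ((ZZ k).A σ).zero_mem
    have h1 := (lat_iff hL h2 hU ⟨w, hw⟩ _).mp (hφ _ hv) e
    have h3 : (φ (Pi.single e' (uu k (tE e') w)) e : K0 k) =
        uu k (tE e') w * φ (Pi.single e' 1) e := by
      have h4 : (Pi.single e' (uu k (tE e') w) : IE → K0 k) =
          uu k (tE e') w • (Pi.single e' 1 : IE → K0 k) := by
        funext i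
        by_cases h : i = e'
        · subst h; simp
        · simp [Pi.single_eq_of_ne h]
      rw [h4, map_smul]; rfl
    have hu0 : ((uu k (tE e') w : K0 k) : LL k) ≠ 0 := by
      intro h
      exact uu_ne_zero k (tE e') w (Subtype.ext h)
    have h5 : TM φ e e' = ((φ (Pi.single e' (uu k (tE e') w)) e : K0 k) : LL k) * th k (tE e) *
        (∏ s, al k (lt k s (cl w s)) ^ tE e' s)⁻¹ := by
      rw [← uu_th, h3]
      have h6 : ((uu k (tE e') w * φ (Pi.single e' 1) e : K0 k) : LL k) =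
        ((uu k (tE e') w : K0 k) : LL k) * ((φ (Pi.single e' 1) e : K0 k) : LL k) := rfl
      rw [h6]
      unfold TM ent
      have h7 := th_ne (k := k) (tE e')
      field_simp
    have hne : ∏ s, al k (lt k s (cl w s)) ^ tE e' s ≠ 0 :=
      Finset.prod_ne_zero_iff.mpr fun s _ => zpow_ne_zero _ (lt_ne s _)
    rw [h5]
    refine ⟨?_, (Dn k _).mul_mem h1.2 (uth_inv_dn e' w _)⟩
    exact hd_congr (HD_mul h1.1 (hd_inv (uth_hd (tE e') w) hne)) (fun s => by ring)
  · unfold TM ent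
    rw [map_div₀, map_mul, ga_K0 hI h2, ga_th, ga_th]

theorem TL_mem' (hL : LatHom.{u}) (h2 : (2 : k) ≠ 0) (hU : UU k)
    {σ : Finset GW} (hσ : σ.Nonempty) (φ : EndE k) (hφ : TL φ ∈ (EY k).H (EY k) σ)
    (v : IE → K0 k) (hv : v ∈ (EZ k hU).lat σ) : φ v ∈ (EZ k hU).lat σ := by
  rw [mem_EYH, mat_TL] at hφ
  rw [lat_iff hL h2 hU hσ] at hv ⊢
  intro e
  have h1 : ((φ v e : K0 k) : LL k) * th k (tE e) =
      ∑ e' : IE, TM φ e e' * (((v e' : K0 k) : LL k) * th k (tE e')) := by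
    have h3 : ((φ v e : K0 k) : LL k) = ∑ e' : IE, ((v e' : K0 k) : LL k) * ent φ e e' := by
      rw [expand φ v e, ← IntermediateField.coe_val, map_sum]
      rfl
    rw [h3, Finset.sum_mul]
    refine Finset.sum_congr rfl fun e' _ => ?_
    unfold TM
    have h7 := th_ne (k := k) (tE e')
    field_simp
  rw [h1]
  constructor
  · refine Submodule.sum_mem _ fun e' _ => ?_
    exact hd_congr (HD_mul (hφ.1 e e').1 (hv e').1) (fun s => by ring)
  · exact Subalgebra.sum_mem _ fun e' _ => (Dn k _).mul_mem (hφ.1 e e').2 (hv e').2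

theorem TL_surj (hI : InvThm.{u}) (h2 : (2 : k) ≠ 0) {σ : Finset GW}
    (ψ : (EY k).G.V →ₗ[LL k] (EY k).G.V) (hψ : ψ ∈ (EY k).H (EY k) σ) :
    ∃ φ : EndE k, TL φ = ψ := by
  rw [mem_EYH] at hψ
  have h1 : ∀ e e' : IE, ∃ y : K0 k,
      (y : LL k) = YObj.mat ψ e e' * (th k (tE e') / th k (tE e)) := by
    intro e e'
    have h3 := (hI k h2 (insert w0 σ) (Finset.insert_nonempty _ _)
      (YObj.mat ψ e e' * (th k (tE e') / th k (tE e)))).mp ?_
    · obtain ⟨y, -, hy⟩ := h3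
      exact ⟨y, hy⟩
    · refine ⟨?_, ?_, ?_⟩
      · rw [div_eq_mul_inv]
        exact hd_congr (HD_mul (hψ.1 e e').1 (HD_mul (th_hd (tE e')) (hd_inv (th_hd (tE e))
          (th_ne _)))) (fun s => by ring)
      · exact (Dn k _).mul_mem (Dn_mono (fs_dvd (Finset.subset_insert _ _)) (hψ.1 e e').2)
          (th_div_dn e e' _ (Finset.mem_insert_self _ _))
      · intro a
        rw [map_mul, map_div₀, hψ.2 a e e', ga_th, ga_th]
  choose y hy using h1
  refine ⟨Matrix.toLin' (Matrix.of y), ?_⟩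
  apply YObj.mat_injective
  rw [mat_TL]
  ext e e'
  have h4 : ent (Matrix.toLin' (Matrix.of y) : EndE k) e e' = y e e' := by
    unfold ent
    rw [Matrix.toLin'_apply]
    congr 1
    simp
  unfold TM
  rw [h4, hy]
  have h5 := th_ne (k := k) (tE e)
  have h6 := th_ne (k := k) (tE e')
  field_simp

/-! ### the morphism of DG algebras -/

theorem TL_isDeg (hU : UU k) (n : ℤ) (φ : EndE k) :
    IsDeg (X := (EZ k hU).toGrD) (Y := (EZ k hU).toGrD) n φ ↔
      IsDeg (X := (EY k).G) (Y := (EY k).G) n (TL φ) := by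
  have hpr : ∀ i, TL (if i = 0 then LinearMap.id else 0 : EndE k) = (EY k).G.pr i := by
    intro i
    rw [EY_pr]
    split
    · exact TL_id
    · exact TL_zero
  have h1 : ∀ i, (φ ∘ₗ (if i = 0 then LinearMap.id else 0 : EndE k) =
      (if i + n = 0 then LinearMap.id else 0 : EndE k) ∘ₗ φ) ↔
      (TL φ ∘ₗ (EY k).G.pr i = (EY k).G.pr (i + n) ∘ₗ TL φ) := by
    intro i
    rw [← hpr, ← hpr, ← TL_comp, ← TL_comp]
    exact ⟨fun h => by rw [h], fun h => TL_inj h⟩
  constructor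
  · intro h i
    exact (h1 i).mp (h i)
  · intro h i
    exact (h1 i).mpr (h i)

theorem TL_ccup (c c' : Finset GW → EndE k) (σ : Finset GW) :
    TL (ccup c c' σ) = ccup (fun τ => TL (c τ)) (fun τ => TL (c' τ)) σ := by
  unfold ccup
  refine (map_sum (TA k) _ _).trans ?_
  exact Finset.sum_congr rfl fun i _ => TL_comp _ _

theorem TL_cdel (c : Finset GW → EndE k) (σ : Finset GW) :
    TL (cdel c σ) = cdel (fun τ => TL (c τ)) σ := by
  unfold cdel
  refine (map_sum (TA k) _ _).trans ?_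
  exact Finset.sum_congr rfl fun i _ => map_zsmul (TA k) _ _

/-- the cochains on the side of the variety -/
abbrev CA (k : Type u) [Field k] (hU : UU k) (n : ℤ) : Type u :=
  (ZZ k).sys.Hom (EZ k hU) (EZ k hU) n

/-- the equivariant cochains -/
abbrev CB (k : Type u) [Field k] (n : ℤ) : Type u := (ysys k).Hom (EY k) (EY k) n

/-- the underlying family of a cochain -/
def va {hU : UU k} {n : ℤ} (c : CA k hU n) : Finset GW → EndE k := c.1

/-- the underlying family of a cochain -/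
def vb {n : ℤ} (c : CB k n) : Finset GW → ((EY k).G.V →ₗ[LL k] (EY k).G.V) := c.1

theorem va_inj {hU : UU k} {n : ℤ} {c c' : CA k hU n} (h : va c = va c') : c = c' := Subtype.ext h

theorem vb_inj {n : ℤ} {c c' : CB k n} (h : vb c = vb c') : c = c' := Subtype.ext h

theorem va_empty {hU : UU k} {n : ℤ} (c : CA k hU n) : va c ∅ = 0 := c.2.1

theorem vb_empty {n : ℤ} (c : CB k n) : vb c ∅ = 0 := c.2.1

theorem va_mem {hU : UU k} {n : ℤ} (c : CA k hU n) (σ : Finset GW) (hσ : σ.Nonempty)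
    (v : IE → K0 k) (hv : v ∈ (EZ k hU).lat σ) : va c σ v ∈ (EZ k hU).lat σ := (c.2.2 σ hσ).1 v hv

theorem vb_mem {n : ℤ} (c : CB k n) (σ : Finset GW) (hσ : σ.Nonempty) :
    vb c σ ∈ (EY k).H (EY k) σ := (c.2.2 σ hσ).1

theorem va_deg {hU : UU k} {n : ℤ} (c : CA k hU n) (σ : Finset GW) (hσ : σ.Nonempty) :
    IsDeg (X := (EZ k hU).toGrD) (Y := (EZ k hU).toGrD) (n - ((σ.card : ℤ) - 1)) (va c σ) :=
  (c.2.2 σ hσ).2

theorem vb_deg {n : ℤ} (c : CB k n) (σ : Finset GW) (hσ : σ.Nonempty) :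
    IsDeg (X := (EY k).G) (Y := (EY k).G) (n - ((σ.card : ℤ) - 1)) (vb c σ) :=
  (c.2.2 σ hσ).2

/-- construction of a cochain -/
def mka {hU : UU k} {n : ℤ} (f : Finset GW → EndE k) (h0 : f ∅ = 0)
    (h1 : ∀ σ : Finset GW, σ.Nonempty → ∀ v : IE → K0 k, v ∈ (EZ k hU).lat σ →
      f σ v ∈ (EZ k hU).lat σ)
    (h2 : ∀ σ : Finset GW, σ.Nonempty →
      IsDeg (X := (EZ k hU).toGrD) (Y := (EZ k hU).toGrD) (n - ((σ.card : ℤ) - 1)) (f σ)) :
    CA k hU n := ⟨f, h0, fun σ hσ => ⟨h1 σ hσ, h2 σ hσ⟩⟩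

theorem va_mka {hU : UU k} {n : ℤ} (f : Finset GW → EndE k) (h0 h1 h2) :
    va (mka (hU := hU) (n := n) f h0 h1 h2) = f := rfl

/-- construction of a cochain -/
def mkb {n : ℤ} (f : Finset GW → ((EY k).G.V →ₗ[LL k] (EY k).G.V)) (h0 : f ∅ = 0)
    (h1 : ∀ σ : Finset GW, σ.Nonempty → f σ ∈ (EY k).H (EY k) σ)
    (h2 : ∀ σ : Finset GW, σ.Nonempty →
      IsDeg (X := (EY k).G) (Y := (EY k).G) (n - ((σ.card : ℤ) - 1)) (f σ)) :
    CB k n := ⟨f, h0, fun σ hσ => ⟨h1 σ hσ, h2 σ hσ⟩⟩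

theorem vb_mkb {n : ℤ} (f : Finset GW → ((EY k).G.V →ₗ[LL k] (EY k).G.V)) (h0 h1 h2) :
    vb (mkb (n := n) f h0 h1 h2) = f := rfl

/-- the map on cochains -/
def FF (hI : InvThm.{u}) (hL : LatHom.{u}) (h2 : (2 : k) ≠ 0) {hU : UU k} {n : ℤ}
    (c : CA k hU n) : CB k n :=
  mkb (fun σ => TL (va c σ)) (by rw [va_empty, TL_zero])
    (fun σ hσ => TL_mem hI hL h2 hU hσ _ (va_mem c σ hσ))
    (fun σ hσ => (TL_isDeg hU _ _).mp (va_deg c σ hσ))

theorem vb_FF (hI : InvThm.{u}) (hL : LatHom.{u}) (h2 : (2 : k) ≠ 0) {hU : UU k} {n : ℤ}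
    (c : CA k hU n) (σ : Finset GW) : vb (FF hI hL h2 c) σ = TL (va c σ) := rfl

theorem FF_inj (hI : InvThm.{u}) (hL : LatHom.{u}) (h2 : (2 : k) ≠ 0) {hU : UU k} {n : ℤ}
    {c c' : CA k hU n} (h : FF hI hL h2 c = FF hI hL h2 c') : c = c' := by
  apply va_inj
  funext σ
  apply TL_inj
  rw [← vb_FF hI hL h2, ← vb_FF hI hL h2, h]

theorem FF_surj (hI : InvThm.{u}) (hL : LatHom.{u}) (h2 : (2 : k) ≠ 0) {hU : UU k} {n : ℤ}
    (y : CB k n) : ∃ c : CA k hU n, FF hI hL h2 c = y := by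
  have h1 : ∀ σ : Finset GW, ∃ φ : EndE k, TL φ = vb y σ := by
    intro σ
    rcases σ.eq_empty_or_nonempty with rfl | hσ
    · exact ⟨0, by rw [TL_zero, vb_empty]⟩
    · exact TL_surj hI h2 _ (vb_mem y σ hσ)
  choose φ hφ using h1
  refine ⟨mka φ ?_ ?_ ?_, ?_⟩
  · apply TL_inj
    rw [hφ, vb_empty, TL_zero]
  · intro σ hσ v hv
    exact TL_mem' hL h2 hU hσ (φ σ) (by rw [hφ]; exact vb_mem y σ hσ) v hv
  · intro σ hσ
    refine (TL_isDeg hU _ (φ σ)).mpr ?_
    rw [hφ]
    exact vb_deg y σ hσ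
  · apply vb_inj
    funext σ
    rw [vb_FF, va_mka, hφ]

theorem FF_add (hI : InvThm.{u}) (hL : LatHom.{u}) (h2 : (2 : k) ≠ 0) {hU : UU k} {n : ℤ}
    (c c' : CA k hU n) : FF hI hL h2 (c + c') = FF hI hL h2 c + FF hI hL h2 c' := by
  apply vb_inj
  funext σ
  exact TL_add (va c σ) (va c' σ)

theorem FF_smul (hI : InvThm.{u}) (hL : LatHom.{u}) (h2 : (2 : k) ≠ 0) {hU : UU k} {n : ℤ}
    (r : k) (c : CA k hU n) : FF hI hL h2 (r • c) = r • FF hI hL h2 c := by
  apply vb_inj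
  funext σ
  exact TL_smul r (va c σ)

theorem FF_one (hI : InvThm.{u}) (hL : LatHom.{u}) (h2 : (2 : k) ≠ 0) {hU : UU k} :
    FF hI hL h2 (((ZZ k).perf.End (EZ k hU)).one : CA k hU 0) =
      (((ysys k).dg.End (EY k)).one : CB k 0) := by
  apply vb_inj
  funext σ
  change TL (cone1 (IE → K0 k) σ) = cone1 (EY k).G.V σ
  unfold cone1
  split
  · exact TL_id
  · exact TL_zero

theorem FF_mul (hI : InvThm.{u}) (hL : LatHom.{u}) (h2 : (2 : k) ≠ 0) {hU : UU k} {n m l : ℤ}
    (h : n + m = l) (x : CA k hU n) (y : CA k hU m) :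
    FF hI hL h2 (((ZZ k).perf.End (EZ k hU)).mul h x y : CA k hU l) =
      (((ysys k).dg.End (EY k)).mul h (FF hI hL h2 x) (FF hI hL h2 y) : CB k l) := by
  apply vb_inj
  funext σ
  exact TL_ccup (va x) (va y) σ

theorem TL_rawD (hU : UU k) (n : ℤ) (c : Finset GW → EndE k) (σ : Finset GW) :
    TL (rawD (EZ k hU).toGrD (EZ k hU).toGrD n c σ) =
      rawD (EY k).G (EY k).G n (fun τ => TL (c τ)) σ := by
  have hd : (EZ k hU).toGrD.d = 0 := rfl
  have h1 : rawD (EZ k hU).toGrD (EZ k hU).toGrD n c σ = cdel c σ := by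
    unfold rawD
    rw [EZ_P, hd, LinearMap.id_comp, LinearMap.zero_comp, LinearMap.comp_zero, smul_zero,
      sub_zero, add_zero]
    rfl
  have h2 : rawD (EY k).G (EY k).G n (fun τ => TL (c τ)) σ = cdel (fun τ => TL (c τ)) σ := by
    unfold rawD
    rw [EY_P, EY_d, LinearMap.id_comp, LinearMap.zero_comp, LinearMap.comp_zero, smul_zero,
      sub_zero, add_zero]
  rw [h2]
  refine (congrArg TL h1).trans ?_
  exact TL_cdel c σ

theorem FF_d (hI : InvThm.{u}) (hL : LatHom.{u}) (h2 : (2 : k) ≠ 0) {hU : UU k} {n m : ℤ}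
    (h : n + 1 = m) (x : CA k hU n) :
    FF hI hL h2 (((ZZ k).perf.End (EZ k hU)).d h x : CA k hU m) =
      (((ysys k).dg.End (EY k)).d h (FF hI hL h2 x) : CB k m) := by
  apply vb_inj
  funext σ
  exact TL_rawD hU n (va x) σ

/-- the morphism of DG algebras -/
def Fm (hI : InvThm.{u}) (hL : LatHom.{u}) (h2 : (2 : k) ≠ 0) (hU : UU k) :
    DGA.Mor ((ZZ k).perf.End (EZ k hU)) ((ysys k).dg.End (EY k)) where
  f n := { toFun := fun c => FF (hU := hU) (n := n) hI hL h2 c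
           map_add' := fun c c' => FF_add hI hL h2 c c'
           map_smul' := fun r c => FF_smul hI hL h2 r c }
  f_one := FF_one hI hL h2
  f_mul h x y := FF_mul hI hL h2 h x y
  f_d h x := FF_d hI hL h2 h x

theorem qiso_of_bij {A B : DGA.{u, u} k} (F : DGA.Mor A B) (hi : ∀ n, Function.Injective (F.f n))
    (hs : ∀ n, Function.Surjective (F.f n)) : F.QIso := by
  constructor
  · intro l n m h₁ h₃ x y _ hy
    obtain ⟨z, hz⟩ := hs l y
    refine ⟨z, ?_⟩
    apply hi n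
    rw [F.f_d, hz, hy]
  · intro l n m h₁ h₃ y hy
    obtain ⟨x, hx⟩ := hs n y
    refine ⟨x, 0, ?_, ?_⟩
    · apply hi m
      rw [F.f_d, hx, hy, map_zero]
    · rw [map_zero, add_zero, hx]

/-- D3 -/
theorem endIso (hI : InvThm.{u}) (hL : LatHom.{u}) : EndIso.{u} := by
  intro k _ h2 hU
  refine DGA.QEquiv.right (Fm hI hL h2 hU) (qiso_of_bij _ ?_ ?_) (DGA.QEquiv.refl _)
  · intro n x x' h
    exact FF_inj hI hL h2 (hU := hU) (n := n) h
  · intro n y
    exact FF_surj hI hL h2 (hU := hU) (n := n) y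

end

end Pool.Agent.Helper87.RZ
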